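import Pool.Agent.Helper19.HV.XS

/-!
# Project HV, module CRD: nonconstant functions as coordinates
-/

set_option autoImplicit false

namespace Pool.Agent.Helper19.HV

noncomputable section

open PL

/-- CRD. -/
theorem mCRD {F : Type} [Field F] :
    Crd (fun y : RatFunc F => ∀ c : F, y ≠ RatFunc.C c) (fun _ => True) := by
  refine ⟨fun y hy c => hy c, ?_, fun _ _ _ _ _ _ _ _ => trivial⟩
  intro y hy a b c d had e he
  -- a linear relation for `y` is trivial
  have key : ∀ u v : F, RatFunc.C u * y = RatFunc.C v → u = 0 ∧ v = 0 := by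
    intro u v h
    have hu : u = 0 := by
      by_contra hu
      apply hy (v / u)
      rw [map_div₀, ← h, mul_div_cancel_left₀ _ (C_ne hu)]
    refine ⟨hu, ?_⟩
    rw [hu, map_zero, zero_mul] at h
    exact (map_eq_zero_iff (RatFunc.C : F →+* RatFunc F) (RatFunc.C : F →+* RatFunc F).injective).1 h.symm
  have hden : (RatFunc.C c * y + RatFunc.C d : RatFunc F) ≠ 0 := by
    intro h
    obtain ⟨h1, h2⟩ := key c (-d) (by rw [map_neg]; linear_combination h)
    apply had
    rw [h1, neg_eq_zero.1 h2]
    ring
  rw [div_eq_iff hden] at he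
  obtain ⟨h1, h2⟩ := key (a - e * c) (e * d - b) (by
    rw [map_sub, map_sub, map_mul, map_mul]
    linear_combination he)
  apply had
  linear_combination d * h1 + c * h2

end

end Pool.Agent.Helper19.HV
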