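import Pool.Agent.Helper19.HV.XS

/-!
# Project HV, module VAN: `φ₁` vanishes
-/

set_option autoImplicit false

namespace Pool.Agent.Helper19.HV

noncomputable section

open PL

/-- VAN. -/
theorem mVAN {F : Type} [Field F] {vi : P1 (RatFunc F) → P1 F} (hvi : Vinf vi)
    {Ψ0 Ψ1 : P1 (RatFunc F) → (V (RatFunc F) →ₗ[ℚ] ℚ)}
    {L : P1 (RatFunc F) → (V (RatFunc F) →ₗ[ℚ] V (RatFunc F) →ₗ[ℚ] ℚ)} (hL : Ls L)
    (hLc : ∀ x (u : F) k, L x (lg (RatFunc.C u)) k = 0) {φ0 φ1 : F4 F}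
    (hD : ∀ a b : F, a ≠ b → FT5 fun c : F => φ0 (E (a + c * (b - a))) (E a) (E a) (E b))
    (hLE : ∀ x a b, a ≠ b → L x (E a) (E b) =
      -3 * ext0 (fun c : F => φ0 (E (a + c * (b - a))) (E a) (E a) (E b)) (vi x))
    (h01 : ∀ x k, Ψ1 x k = Ψ0 x k - L x (cl x) k) (f0 : Fml φ0 Ψ0) (f1 : Fml φ1 Ψ1)
    (hφ1 : Frm φ1) (hcal : Cal φ1 RatFunc.X) (p a b : F) :
    φ1 (E p) (E a) (E a) (E b) = 0 := by
  have c1 : ∀ l n : F, φ1 (E n) (E l) (E l) (E l) = 0 := fun l n => (hcal l l n).1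
  have c2 : ∀ l m n : F, φ1 (E n) (E l) (E l) (E m) = φ1 (E n) (E l) (E m) (E m) :=
    fun l m n => (hcal l m n).2.1
  have c3 : ∀ l m : F, φ1 (E l) (E l) (E l) (E m) = 0 := fun l m => (hcal l m l).2.2
  by_cases hab : a = b
  · rw [← hab]
    exact c1 a p
  by_cases hpa : p = a
  · rw [hpa]
    exact c3 a b
  by_cases hpb : p = b
  · rw [hpb, c2, hφ1.s12, hφ1.s23]
    exact c3 b a
  have hba : b ≠ a := fun h => hab h.symm
  have g1 := f1 a b p hab hpa hpb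
  have g0 := f0 a b p hab hpa hpb
  have hself : ∀ x v, L x v v = 0 := fun x v => hL.alt x v
  have hanti : ∀ x v w, L x v w = - L x w v := by
    intro x v w
    have h := hself x (v + w)
    rw [map_add, map_add, LinearMap.add_apply, LinearMap.add_apply, hself, hself] at h
    linear_combination h
  have hpa0 : p - a ≠ 0 := sub_ne_zero.2 hpa
  have hpb0 : p - b ≠ 0 := sub_ne_zero.2 hpb
  have hba0 : b - a ≠ 0 := sub_ne_zero.2 hba
  obtain ⟨c, hc⟩ : ∃ c, c = (p - b) / (p - a) := ⟨_, rfl⟩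
  have hc0 : c ≠ 0 := by
    rw [hc]
    exact div_ne_zero hpb0 hpa0
  have v1 : ∀ a p : F, p ≠ a → vi (x1 a p) = none := fun a p h =>
    hvi.lin a _ (inv_ne_zero (sub_ne_zero.2 h))
  have v2 : ∀ c, vi (x2 a b c) = some c := fun c => hvi.frac a b c
  have e1 : L (x1 a p) (cl (x1 a p)) (E a + E b) = 0 := by
    rw [cl_x1 hpa, map_sub, LinearMap.sub_apply, hLc, map_add, hself, hLE _ _ _ hab, v1 a p hpa, ext0]
    ring
  have e2 : L (x1 b p) (cl (x1 b p)) (E a) = 0 := by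
    rw [cl_x1 hpb, map_sub, LinearMap.sub_apply, hLc, hLE _ _ _ hba, v1 b p hpb, ext0]
    ring
  have e3 : ∀ c : F, c ≠ 0 → L (x2 a b c) (cl (x2 a b c)) (E a) =
      -3 * φ0 (E (a + c * (b - a))) (E a) (E a) (E b) := by
    intro c hc
    rw [cl_x2 hc, map_add, map_sub, LinearMap.add_apply, LinearMap.sub_apply, hLc, hself,
      hanti _ (E b) (E a), hLE _ _ _ hab, v2, ext0]
    ring
  have hF := hD a b hab
  have d1 : φ0 (E (a + 1 * (b - a))) (E a) (E a) (E b) = 0 := by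
    have h1 := hF.one_sub 0
    have h2 := hF.zero
    simp only [sub_zero] at h1 h2
    rw [h1, h2, neg_zero]
  obtain ⟨l, hl⟩ : ∃ l, l = (p - a) / (b - a) := ⟨_, rfl⟩
  have hcl : c = 1 - l⁻¹ := by
    rw [hc, hl]
    field_simp
    ring
  have d2 : φ0 (E (a + c * (b - a))) (E a) (E a) (E b) = φ0 (E p) (E a) (E a) (E b) := by
    have h1 := hF.one_sub l⁻¹
    have h2 := hF.inv l
    beta_reduce at h1 h2
    rw [hcl, h1, h2, neg_neg]
    have h3 : a + l * (b - a) = p := by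
      rw [hl]
      field_simp
      ring
    rw [h3]
  rw [← hc] at g0 g1
  rw [h01, h01, h01, h01, e1, e2, e3 c hc0, e3 1 one_ne_zero, d1, d2] at g1
  linarith

end

end Pool.Agent.Helper19.HV
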